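import Pool.Agent.CGB8.Emb

/-!
# Normal subgroup lattices of groups of class two
-/

set_option autoImplicit false

namespace Pool.Agent.Results.MP_944de5_al.DivisibleClassTwo

open scoped commutatorElement

universe u

/-- Let `G` be a group, finite or infinite, of nilpotency class at most two, such that every element
of `G` is a square modulo the centre of `G`.  Then the congruence lattice of `G` embeds, as a
lattice, into the congruence lattice of an abelian group. -/
theorem result (G : Type u) [Group G] (hc : ∀ x y z : G, ⁅⁅x, y⁆, z⁆ = 1)
    (h : ∀ x : G, ∃ y, x⁻¹ * (y * y) ∈ Subgroup.center G) :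
    ∃ (B : Type u) (_ : CommGroup B) (f : LatticeHom (Con G) (Con B)), Function.Injective f :=
  CGB8.embed_half G hc h

end Pool.Agent.Results.MP_944de5_al.DivisibleClassTwo
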