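import Pool.Agent.CGA.AQ

/-!
# Normal subgroup lattices of products of two abelian groups
-/

set_option autoImplicit false

namespace Pool.Agent.Results.MP_944de5_al.ProductOfAbelian

universe u

/-- Let `G` be a group, finite or infinite, which is the product `G = A Q` of two abelian subgroups
`A` and `Q` (neither of them has to be normal).  Then the congruence lattice of `G` embeds, as a
lattice, into the congruence lattice of an abelian group. -/
theorem result (G : Type u) [Group G] (A Q : Subgroup G)
    (hA : ∀ x ∈ A, ∀ y ∈ A, x * y = y * x) (hQ : ∀ x ∈ Q, ∀ y ∈ Q, x * y = y * x)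
    (h : ∀ g : G, ∃ a ∈ A, ∃ q ∈ Q, a * q = g) :
    ∃ (B : Type u) (_ : CommGroup B) (f : LatticeHom (Con G) (Con B)), Function.Injective f := by
  obtain ⟨f, hf⟩ := CGA.embed A Q hA hQ h
  exact ⟨A × Q, { (inferInstance : Group (A × Q)) with
    mul_comm := fun u v => Prod.ext (Subtype.ext (hA _ u.1.2 _ v.1.2))
      (Subtype.ext (hQ _ u.2.2 _ v.2.2)) }, f, hf⟩

end Pool.Agent.Results.MP_944de5_al.ProductOfAbelian
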