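import Pool.Agent.CGA.Asm
import Pool.Agent.CGA.Baer

/-!
# Normal subgroup lattices of finite groups with conditions on the Sylow subgroups
-/

set_option autoImplicit false

namespace Pool.Agent.Results.MP_944de5_al.SylowConditions

open scoped commutatorElement

universe u

/-- Let `G` be a finite group such that for every prime `p` and every Sylow `p`-subgroup `P` of `G`
one of the following holds: `p ^ 5` does not divide the order of `G`, or `P = A Q` is a product of
two abelian subgroups, or `p` is odd and `P` has nilpotency class at most two.  Then the congruence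
lattice of `G` embeds, as a lattice, into the congruence lattice of an abelian group. -/
theorem result (G : Type u) [Group G] [Finite G]
    (h : ∀ (p : ℕ) [Fact p.Prime] (P : Sylow p G), ¬ p ^ 5 ∣ Nat.card G ∨
      (∃ A Q : Subgroup P, (∀ x ∈ A, ∀ y ∈ A, x * y = y * x) ∧
        (∀ x ∈ Q, ∀ y ∈ Q, x * y = y * x) ∧ ∀ g : P, ∃ a ∈ A, ∃ q ∈ Q, a * q = g) ∨
      (p ≠ 2 ∧ ∀ x y z : P, ⁅⁅x, y⁆, z⁆ = 1)) :
    ∃ (B : Type u) (_ : CommGroup B) (f : LatticeHom (Con G) (Con B)), Function.Injective f := by
  refine CGA.embed_of_sylow G fun p hp P => ?_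
  rcases h p P with h1 | ⟨A, Q, hA, hQ, h2⟩ | ⟨h2, h3⟩
  · exact CGA.abl_of_fifth G p P h1
  · exact CGA.abl_of_prod A Q hA hQ h2
  · exact CGA.baer h2 P.isPGroup' h3

end Pool.Agent.Results.MP_944de5_al.SylowConditions
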